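import Pool.Agent.Lib.MP_d3e341_ag.Final

set_option autoImplicit false

universe u

namespace Pool.Agent.Results.MP_d3e341_ag.BassQuillenFails

open BQAff

/-- Over every field `K` complete for a nontrivial non-archimedean absolute value there are a
smooth affinoid algebra `A = K⟨x,y⟩/(f)` and a finitely generated projective `A⟨T⟩`-module `M`
which is not isomorphic to `A⟨T⟩ ⊗_A N` for any `A`-module `N`. -/
theorem result (K : Type u) [NontriviallyNormedField K] [IsUltrametricDist K] [CompleteSpace K] :
    ∃ I : Ideal (Tate K 2), (∃ f, I = Ideal.span {f}) ∧ IsSmooth I ∧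
      ∃ (M : Type u) (_ : AddCommGroup M) (_ : Module (AffT I) M),
        Module.Finite (AffT I) M ∧ Module.Projective (AffT I) M ∧ ¬ IsExtended I M :=
  main K

end Pool.Agent.Results.MP_d3e341_ag.BassQuillenFails
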